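import Pool.Agent.Run7.h168.Lin.Abs
import Pool.Agent.Run7.h168.Mult.Wrap

/-!
# Numbers which satisfy an algebraic relation over numbers with a measure, uniformly in the relation
-/

set_option autoImplicit false

namespace Pool.Agent.Run7.h168.Uni

open Finset Polynomial Pool.Agent.R356 Pool.Agent.N743.SS Pool.Agent.TH456.TM Pool.Agent.Run7.h168.Mult
  Pool.Agent.Run7.h168.Lin

/-- the numbers `u_i ∈ [-1, 1]` satisfy a relation of degree `≤ E` in each `u_i` with coefficients of degree `≤ E` and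
of size `≤ h` in the ring `ℤ[x]`; some coefficient of a monomial in the `x_j` has an absolute value `≥ 1/h` at `u` -/
def Rel {ι : Type} (x : ι → ℝ) (m E : ℕ) (u : Fin m → ℝ) (h : ℝ) : Prop :=
  (∀ i, |u i| ≤ 1) ∧ ∃ a : (Fin m → Fin (E + 1)) → MvPolynomial ι ℤ,
    (∀ s, (a s).totalDegree ≤ E) ∧ (∀ s, lenM (a s) ≤ h) ∧ (∀ s, |MvPolynomial.aeval x (a s)| ≤ h) ∧
    ∑ s, MvPolynomial.aeval x (a s) * ∏ i, u i ^ (s i : ℕ) = 0 ∧
    ∃ d : ι →₀ ℕ, 1 ≤ h * |∑ s, (((a s).coeff d : ℤ) : ℝ) * ∏ i, u i ^ (s i : ℕ)|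

/-- monomials are Lipschitz functions -/
lemma lip (m E : ℕ) : ∃ L : ℝ, 1 ≤ L ∧ ∀ (s : Fin m → Fin (E + 1)) (y z : Fin m → ℂ), ‖y‖ ≤ 2 → ‖z‖ ≤ 2 →
    ‖∏ i, y i ^ (s i : ℕ) - ∏ i, z i ^ (s i : ℕ)‖ ≤ L * ‖y - z‖ := by
  classical
  have h1 : ∀ s : Fin m → Fin (E + 1), ∃ L : ℝ, 0 ≤ L ∧ ∀ y z : Fin m → ℂ, ‖y‖ ≤ 2 → ‖z‖ ≤ 2 →
      ‖∏ i, y i ^ (s i : ℕ) - ∏ i, z i ^ (s i : ℕ)‖ ≤ L * ‖y - z‖ := by
    intro s
    obtain ⟨f, hf⟩ : ∃ f : (Fin m → ℂ) → ℂ, f = fun y => ∏ i, y i ^ (s i : ℕ) := ⟨_, rfl⟩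
    have hfC : ContDiff ℝ 1 f := by
      rw [hf]
      refine contDiff_prod fun i _ => ?_
      exact (contDiff_apply ℝ ℂ i).pow _
    have h2 : LocallyLipschitzOn (Metric.closedBall (0 : Fin m → ℂ) 2) f :=
      hfC.locallyLipschitz.locallyLipschitzOn
    obtain ⟨K, hK⟩ := h2.exists_lipschitzOnWith_of_compact (isCompact_closedBall _ _)
    refine ⟨K, K.2, fun y z hy hz => ?_⟩
    have h3 := hK.dist_le_mul y (by simpa using hy) z (by simpa using hz)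
    rw [dist_eq_norm, dist_eq_norm, hf] at h3
    exact h3
  choose L hL0 hL using h1
  refine ⟨1 + ∑ s, L s, by linarith [Finset.sum_nonneg fun s (_ : s ∈ (Finset.univ : Finset (Fin m → Fin (E + 1)))) => hL0 s],
    fun s y z hy hz => (hL s y z hy hz).trans ?_⟩
  refine mul_le_mul_of_nonneg_right ?_ (norm_nonneg _)
  have := Finset.single_le_sum (f := L) (fun t _ => hL0 t) (Finset.mem_univ s)
  linarith

theorem jointH_rel {ι : Type} (x : ι → ℝ) (hx : MeasM x) (m E : ℕ) : JointH (Rel x m E) := by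
  classical
  intro D
  obtain ⟨xc, hxc⟩ : ∃ xc : ι → ℂ, xc = fun i => ((x i : ℝ) : ℂ) := ⟨_, rfl⟩
  obtain ⟨φ₀, hφ₀⟩ : ∃ φ₀ : MvPolynomial ι ℤ →+* ℂ, φ₀ = (MvPolynomial.aeval xc : MvPolynomial ι ℤ →ₐ[ℤ] ℂ).toRingHom :=
    ⟨_, rfl⟩
  have hφv : ∀ z, φ₀ z = ((MvPolynomial.aeval x z : ℝ) : ℂ) := by
    intro z
    have h1 : φ₀ = (algebraMap ℝ ℂ).comp (MvPolynomial.aeval x : MvPolynomial ι ℤ →ₐ[ℤ] ℝ).toRingHom := by
      rw [hφ₀, hxc]
      refine MvPolynomial.ringHom_ext (fun r => ?_) (fun i => ?_)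
      · simp
      · simp
    rw [h1]
    rfl
  have hφa : ∀ z, φ₀ z = MvPolynomial.aeval xc z := fun z => by rw [hφ₀]; rfl
  obtain ⟨ℓ₀, hℓ₀⟩ : ∃ ℓ₀ : MvPolynomial ι ℤ → ℝ, ℓ₀ = fun z => max (lenM z) ‖φ₀ z‖ := ⟨_, rfl⟩
  have hℓ₀L : IsLen ℓ₀ := by rw [hℓ₀]; exact isLen_max isLenM (isLen_comap φ₀)
  have hℓ₀1 : ∀ z, lenM z ≤ ℓ₀ z := fun z => by rw [hℓ₀]; exact le_max_left _ _
  have hℓ₀2 : ∀ z, ‖φ₀ z‖ ≤ ℓ₀ z := fun z => by rw [hℓ₀]; exact le_max_right _ _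
  have hfil : IsFil (degM (ι := ι)) :=
    { one := by show (1 : MvPolynomial ι ℤ).totalDegree ≤ 0; simp
      mono := fun m n hmn a (ha : a.totalDegree ≤ m) => (show a.totalDegree ≤ n from ha.trans hmn)
      mul := fun m n a b ha hb => (MvPolynomial.totalDegree_mul a b).trans (Nat.add_le_add ha hb) }
  obtain ⟨n, hn⟩ : ∃ n : ℝ, n = Fintype.card (Fin m → Fin (E + 1)) := ⟨_, rfl⟩
  have hn1 : 1 ≤ n := by
    rw [hn]
    exact_mod_cast Fintype.card_pos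
  obtain ⟨L₀, hL₀1, hlip⟩ := lip m E
  obtain ⟨L₁, hL₁⟩ : ∃ L₁ : ℝ, L₁ = n * L₀ := ⟨_, rfl⟩
  have hL₁1 : 1 ≤ L₁ := by rw [hL₁]; exact one_le_mul_of_one_le_of_one_le hn1 hL₀1
  obtain ⟨g, C₁, hC₁, hel⟩ := elim m D (E + 1) 2 (by norm_num)
  obtain ⟨K, hK⟩ : ∃ K : ℝ, K = n + 1 := ⟨_, rfl⟩
  have hK1 : 1 ≤ K := by rw [hK]; linarith
  obtain ⟨κ₀, c₀, hκ₀, hc₀, hmeas⟩ := hx g
  obtain ⟨W, hW⟩ : ∃ W : ℝ, W = C₁ * K ^ g := ⟨_, rfl⟩
  have hW1 : 1 ≤ W := by rw [hW]; exact one_le_mul_of_one_le_of_one_le hC₁ (one_le_pow₀ hK1)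
  obtain ⟨κ₂, hκ₂⟩ : ∃ κ₂ : ℝ, κ₂ = g * κ₀ + g + 2 := ⟨_, rfl⟩
  have hκ₂2 : 2 ≤ κ₂ := by
    rw [hκ₂]
    have : 0 ≤ (g : ℝ) * κ₀ + g := by positivity
    linarith
  obtain ⟨c₂, hc₂⟩ : ∃ c₂ : ℝ, c₂ = min (1 / (2 * L₁)) (c₀ * W ^ (-κ₀) / (2 * L₁ * W)) := ⟨_, rfl⟩
  have hc₂0 : 0 < c₂ := by rw [hc₂]; positivity
  refine ⟨κ₂ * (D + 1), c₂ ^ D / 2, by positivity, by positivity, ?_⟩
  rintro u h ⟨hu, a, had, hal, hav, hrel, d, hd⟩ hh P hP hPD H hPH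
  by_contra hcon
  push Not at hcon
  have hh0 : 0 < h := by linarith
  obtain ⟨uc, huc⟩ : ∃ uc : Fin m → ℂ, uc = fun i => ((u i : ℝ) : ℂ) := ⟨_, rfl⟩
  have huc1 : ‖uc‖ ≤ 1 := by
    rw [pi_norm_le_iff_of_nonneg zero_le_one]
    intro i
    rw [huc, Complex.norm_real, Real.norm_eq_abs]
    exact hu i
  rcases Nat.eq_zero_or_pos m with hm0 | hmpos
  · -- no number
    subst hm0
    have h1 : MvPolynomial.aeval x (∑ s, a s) = 0 := by
      rw [map_sum, ← hrel]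
      refine Finset.sum_congr rfl fun s _ => ?_
      simp
    have h2 : MvPolynomial.aeval xc (∑ s, a s) = 0 := by
      rw [← hφa, hφv, h1, Complex.ofReal_zero]
    have h3 := (algebraicIndependent_iff.1 (algInd hx)) _ (by rw [← hxc]; exact h2)
    have h4 : ∑ s, (((a s).coeff d : ℤ) : ℝ) * ∏ i, u i ^ (s i : ℕ) = 0 := by
      have h5 := congrArg (fun f : MvPolynomial ι ℤ => (((f.coeff d : ℤ)) : ℝ)) h3
      simp only [MvPolynomial.coeff_sum, MvPolynomial.coeff_zero, Int.cast_zero, Int.cast_sum] at h5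
      rw [← h5]
      exact Finset.sum_congr rfl fun s _ => by simp
    rw [h4, abs_zero, mul_zero] at hd
    linarith
  have hH : 1 ≤ H := one_le_of_coeff (P ⟨0, hmpos⟩) (hP _) H (hPH _)
  have hH0 : 0 < H := by linarith
  obtain ⟨Z, hZ⟩ : ∃ Z : ℝ, Z = h * H := ⟨_, rfl⟩
  have hZ1 : 1 ≤ Z := by rw [hZ]; exact one_le_mul_of_one_le_of_one_le hh hH
  have hZ0 : 0 < Z := by linarith
  have hhZ : h ≤ Z := by rw [hZ]; exact le_mul_of_one_le_right hh0.le hH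
  have hHZ : H ≤ Z := by rw [hZ]; exact le_mul_of_one_le_left hH0.le hh
  rw [← hZ] at hcon
  -- the approximations
  obtain ⟨δ, hδ⟩ : ∃ δ : ℝ, δ = c₂ * Z ^ (-κ₂) := ⟨_, rfl⟩
  have hδ0 : 0 < δ := by rw [hδ]; positivity
  have hδ2 : L₁ * h * (δ * h) ≤ 1 / 2 := by
    have h1 : Z ^ (-κ₂) ≤ Z ^ (-2 : ℝ) := Real.rpow_le_rpow_of_exponent_le hZ1 (by linarith)
    have h2 : Z ^ (-2 : ℝ) * (Z * Z) = 1 := by
      rw [show Z * Z = Z ^ (2 : ℝ) by rw [Real.rpow_two]; ring, ← Real.rpow_add hZ0]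
      norm_num
    have h3 : c₂ ≤ 1 / (2 * L₁) := by rw [hc₂]; exact min_le_left _ _
    calc L₁ * h * (δ * h) = L₁ * (c₂ * (Z ^ (-κ₂) * (h * h))) := by rw [hδ]; ring
      _ ≤ L₁ * (1 / (2 * L₁) * (Z ^ (-2 : ℝ) * (Z * Z))) := by gcongr
      _ = 1 / 2 := by rw [h2]; field_simp
  have hδh : L₁ * h * δ ≤ 1 / 2 := by
    have h1 : δ ≤ δ * h := le_mul_of_one_le_right hδ0.le hh
    have h2 : 0 ≤ L₁ * h := by positivity
    exact (mul_le_mul_of_nonneg_left h1 h2).trans hδ2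
  have hδ1 : δ ≤ 1 := by
    have h1 : 1 ≤ L₁ * h := one_le_mul_of_one_le_of_one_le hL₁1 hh
    nlinarith
  have hsm : ∀ i, ‖aeval (uc i) (P i)‖ < δ ^ D := by
    intro i
    have h1 : aeval (uc i) (P i) = ((aeval (u i) (P i) : ℝ) : ℂ) := by
      rw [huc]; exact (map_aeval_int (algebraMap ℝ ℂ) (u i) (P i)).symm
    rw [h1, Complex.norm_real, Real.norm_eq_abs]
    refine (hcon i).trans_le ?_
    rw [hδ, mul_pow]
    have h2 : Z ^ (-(κ₂ * (D + 1))) ≤ (Z ^ (-κ₂)) ^ D := by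
      rw [← Real.rpow_natCast, ← Real.rpow_mul hZ0.le]
      refine Real.rpow_le_rpow_of_exponent_le hZ1 ?_
      nlinarith
    have h3 : c₂ ^ D / 2 ≤ c₂ ^ D := by
      have : 0 < c₂ ^ D := by positivity
      linarith
    exact mul_le_mul h3 h2 (by positivity) (by positivity)
  choose α hα0 hαu using fun i => root_near (uc i) (P i) (hP i) D (hPD i) δ hδ0 hδ1 (hsm i)
  have hαu' : ‖α - uc‖ < δ := by
    rw [pi_norm_lt_iff hδ0]
    intro i
    rw [Pi.sub_apply, norm_sub_rev]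
    exact hαu i
  have hαT' : ‖α‖ ≤ 2 := by
    have h2 : ‖α‖ ≤ ‖α - uc‖ + ‖uc‖ := by
      have := norm_add_le (α - uc) uc
      rwa [sub_add_cancel] at this
    linarith
  have hαT : ∀ i, ‖α i‖ ≤ 2 := fun i => (norm_le_pi_norm α i).trans hαT'
  have hαalg : ∀ i, IsAlgebraic ℤ (α i) := fun i => ⟨P i, hP i, hα0 i⟩
  -- differences
  have hdiff : ∀ q : (Fin m → Fin (E + 1)) → ℂ, (∀ s, ‖q s‖ ≤ h) →
      ‖∑ s, q s * ∏ i, α i ^ (s i : ℕ) - ∑ s, q s * ∏ i, uc i ^ (s i : ℕ)‖ ≤ L₁ * h * δ := by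
    intro q hq
    rw [← Finset.sum_sub_distrib]
    refine (norm_sum_le _ _).trans ?_
    refine (Finset.sum_le_sum (g := fun _ => h * (L₀ * δ)) fun s _ => ?_).trans ?_
    · rw [← mul_sub, norm_mul]
      refine mul_le_mul (hq s) ((hlip s α uc hαT' (huc1.trans (by norm_num))).trans ?_) (norm_nonneg _) hh0.le
      exact mul_le_mul_of_nonneg_left hαu'.le (by linarith)
    · rw [Finset.sum_const, Finset.card_univ, nsmul_eq_mul, ← hn, hL₁]
      exact le_of_eq (by ring)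
  have hcoefle : ∀ s, ‖((((a s).coeff d : ℤ)) : ℂ)‖ ≤ h := by
    intro s
    rw [Complex.norm_intCast]
    exact (le_lenM (a s) d).trans (hal s)
  -- the coefficient of the monomial at `α`
  have hnd : ∑ s, ((((a s).coeff d : ℤ)) : ℂ) * ∏ i, α i ^ (s i : ℕ) ≠ 0 := by
    intro h0
    have h1 := hdiff (fun s => ((((a s).coeff d : ℤ)) : ℂ)) hcoefle
    rw [h0, zero_sub, norm_neg] at h1
    have h2 : ∑ s, ((((a s).coeff d : ℤ)) : ℂ) * ∏ i, uc i ^ (s i : ℕ) =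
        ((∑ s, (((a s).coeff d : ℤ) : ℝ) * ∏ i, u i ^ (s i : ℕ) : ℝ) : ℂ) := by
      rw [huc]
      push_cast
      rfl
    rw [h2, Complex.norm_real, Real.norm_eq_abs] at h1
    have h3 : 1 ≤ h * (L₁ * h * δ) := hd.trans (mul_le_mul_of_nonneg_left h1 hh0.le)
    have h4 : h * (L₁ * h * δ) = L₁ * h * (δ * h) := by ring
    rw [h4] at h3
    linarith
  obtain ⟨ψ, hψ⟩ : ∃ ψ : ι → ℂ, ∑ s, MvPolynomial.aeval ψ (a s) * ∏ i, α i ^ (s i : ℕ) ≠ 0 := by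
    by_contra hc
    push Not at hc
    obtain ⟨G, hG⟩ : ∃ G : MvPolynomial ι ℂ, G =
      ∑ s, MvPolynomial.C (∏ i, α i ^ (s i : ℕ)) * (a s).map (Int.castRingHom ℂ) := ⟨_, rfl⟩
    have hG0 : G = 0 := by
      refine MvPolynomial.funext fun y => ?_
      rw [map_zero, ← hc y, hG, map_sum]
      refine Finset.sum_congr rfl fun s _ => ?_
      rw [map_mul, MvPolynomial.eval_C, MvPolynomial.eval_map, MvPolynomial.aeval_def, mul_comm]
      rfl
    have h1 := congrArg (fun f : MvPolynomial ι ℂ => f.coeff d) hG0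
    simp only [hG, MvPolynomial.coeff_sum, MvPolynomial.coeff_zero, MvPolynomial.coeff_C_mul, MvPolynomial.coeff_map,
      eq_intCast] at h1
    apply hnd
    rw [← h1]
    exact Finset.sum_congr rfl fun s _ => mul_comm _ _
  obtain ⟨f, hf⟩ : ∃ f : (Fin m → ℂ) → ℂ, f = fun y => ∑ s, φ₀ (a s) * ∏ i, y i ^ (s i : ℕ) := ⟨_, rfl⟩
  have hf0 : f uc = 0 := by
    have h1 : f uc = ((∑ s, MvPolynomial.aeval x (a s) * ∏ i, u i ^ (s i : ℕ) : ℝ) : ℂ) := by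
      rw [hf, huc]
      push_cast
      refine Finset.sum_congr rfl fun t _ => ?_
      rw [hφv]
    rw [h1, hrel]
    simp
  obtain ⟨η, hη⟩ : ∃ η : ℂ, η = f α := ⟨_, rfl⟩
  have hη0 : η ≠ 0 := by
    rw [hη, hf]
    have h1 := spec_ne_zero xc (by rw [hxc]; exact algInd hx) a (fun s i => (s i : ℕ)) α hαalg ψ hψ
    simp only [hφa]
    exact h1
  have hηle : ‖η‖ ≤ L₁ * h * δ := by
    have h1 := hdiff (fun s => φ₀ (a s)) (fun s => by
      rw [hφv, Complex.norm_real, Real.norm_eq_abs]; exact hav s)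
    have h2 : ∑ s, φ₀ (a s) * ∏ i, uc i ^ (s i : ℕ) = 0 := by
      rw [← hf0, hf]
    rw [h2, sub_zero] at h1
    rw [hη, hf]
    exact h1
  have hη1 : ‖η‖ ≤ 1 := by linarith
  -- elimination
  obtain ⟨φ, hφ⟩ : ∃ φ : (MvPolynomial ι ℤ)[X] →+* ℂ, φ = eval₂RingHom φ₀ η := ⟨_, rfl⟩
  obtain ⟨ℓ, hℓ⟩ : ∃ ℓ : (MvPolynomial ι ℤ)[X] → ℝ, ℓ = fun z => max (len ℓ₀ z) ‖φ z‖ := ⟨_, rfl⟩
  have hℓL : IsLen ℓ := by rw [hℓ]; exact isLen_max hℓ₀L.poly (isLen_comap φ)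
  have hℓ1 : ∀ z, len ℓ₀ z ≤ ℓ z := fun z => by rw [hℓ]; exact le_max_left _ _
  have hℓ2 : ∀ z, ‖φ z‖ ≤ ℓ z := fun z => by rw [hℓ]; exact le_max_right _ _
  obtain ⟨a', ha'⟩ : ∃ a' : Option (Fin m → Fin (E + 1)) → (MvPolynomial ι ℤ)[X],
    a' = fun o => o.elim X (fun t => -C (a t)) := ⟨_, rfl⟩
  obtain ⟨e', he'⟩ : ∃ e' : Option (Fin m → Fin (E + 1)) → Fin m → ℕ,
    e' = fun o => o.elim 0 (fun t i => (t i : ℕ)) := ⟨_, rfl⟩
  have hval : ∀ (σ : MvPolynomial ι ℤ →+* ℂ) (z : ℂ) (y : Fin m → ℂ),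
      ∑ o, eval₂RingHom σ z (a' o) * ∏ i, y i ^ e' o i = z - ∑ t, σ (a t) * ∏ i, y i ^ (t i : ℕ) := by
    intro σ z y
    rw [Fintype.sum_option, ha', he']
    simp only [Option.elim_none, Option.elim_some, coe_eval₂RingHom, eval₂_X, eval₂_neg, eval₂_C, Pi.zero_apply,
      pow_zero, Finset.prod_const_one, mul_one, neg_mul, Finset.sum_neg_distrib]
    ring
  obtain ⟨Y, hY⟩ : ∃ Y : ℝ, Y = K * Z := ⟨_, rfl⟩
  have hY1 : 1 ≤ Y := by rw [hY]; exact one_le_mul_of_one_le_of_one_le hK1 hZ1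
  obtain ⟨N, hNf, hNl, hNs, hNn⟩ := hel (MvPolynomial ι ℤ)[X] ℓ (filX degM) φ hℓL hℓ2 hfil.poly
    (Option (Fin m → Fin (E + 1))) a' e'
    (fun o i => by
      rw [he']
      cases o with
      | none => exact Nat.zero_le _
      | some t =>
        show (t i : ℕ) ≤ E + 1
        have := (t i).2
        omega)
    (fun o => by
      rw [ha']
      cases o with
      | none =>
        refine ⟨natDegree_X_le.trans (by omega), fun j => ?_⟩
        show (X : (MvPolynomial ι ℤ)[X]).coeff j ∈ degM (E + 1)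
        rw [coeff_X]
        split_ifs
        · exact hfil.mono 0 (E + 1) (Nat.zero_le _) hfil.one
        · exact (degM (E + 1)).zero_mem
      | some t =>
        refine (filX degM (E + 1)).neg_mem ⟨by simp, fun j => ?_⟩
        rw [coeff_C]
        split_ifs
        · exact (had t).trans (Nat.le_succ _)
        · exact (degM (E + 1)).zero_mem)
    P hP hPD Y hY1 (by
      rw [Fintype.sum_option]
      have h1 : ℓ (a' none) ≤ 1 := by
        rw [hℓ, ha', hφ]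
        refine max_le ?_ ?_
        · show len ℓ₀ X ≤ 1
          rw [len_eq hℓ₀L _ 2 (lt_of_le_of_lt natDegree_X_le (by norm_num)), Finset.sum_range_succ,
            Finset.sum_range_one, coeff_X_zero, coeff_X_one, hℓ₀L.zero, zero_add]
          exact hℓ₀L.one
        · show ‖eval₂RingHom φ₀ η X‖ ≤ 1
          rw [coe_eval₂RingHom, eval₂_X]; exact hη1
      have h2 : ∀ t, ℓ (a' (some t)) ≤ h := by
        intro t
        have h3 : ℓ₀ (a t) ≤ h := by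
          rw [hℓ₀]
          refine max_le (hal t) ?_
          rw [hφv, Complex.norm_real, Real.norm_eq_abs]
          exact hav t
        refine le_trans ?_ h3
        rw [hℓ, ha', hφ]
        refine max_le ?_ ?_
        · show len ℓ₀ (-C (a t)) ≤ _
          rw [hℓ₀L.poly.neg, len_C hℓ₀L]
        · show ‖eval₂RingHom φ₀ η (-C (a t))‖ ≤ _
          rw [coe_eval₂RingHom, eval₂_neg, eval₂_C, norm_neg]; exact hℓ₀2 _
      calc ℓ (a' none) + ∑ t, ℓ (a' (some t)) ≤ 1 + ∑ _t : (Fin m → Fin (E + 1)), h :=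
            add_le_add h1 (Finset.sum_le_sum fun t _ => h2 t)
        _ = 1 + n * h := by rw [Finset.sum_const, Finset.card_univ, nsmul_eq_mul, ← hn]
        _ ≤ K * h := by rw [hK]; linarith
        _ ≤ Y := by rw [hY]; exact mul_le_mul_of_nonneg_left hhZ (by linarith))
    (fun i k => ((hPH i k).trans hHZ).trans (by rw [hY]; exact le_mul_of_one_le_left hZ0.le hK1)) α hαT
  have hN0 : φ N = 0 := by
    have h1 := hNs 0 (by
      rw [hφ, hval φ₀ η α, hη, hf, sub_self, norm_zero]) (fun i => by rw [hα0 i, norm_zero])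
    rw [mul_zero] at h1
    exact norm_le_zero_iff.1 h1
  have hNne : N ≠ 0 := by
    -- a value outside of a finite set
    have hfin : {β : Fin m → ℂ | ∀ i, aeval (β i) (P i) = 0}.Finite := by
      have h1 : {β : Fin m → ℂ | ∀ i, aeval (β i) (P i) = 0} =
          Set.pi Set.univ (fun i => {z : ℂ | aeval z (P i) = 0}) := by
        ext β; simp
      rw [h1]
      refine Set.Finite.pi fun i => ?_
      have hinj : Function.Injective (Int.castRingHom ℂ) := Int.cast_injective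
      refine (Multiset.finite_toSet ((P i).map (Int.castRingHom ℂ)).roots).subset fun z hz => ?_
      show z ∈ ((P i).map (Int.castRingHom ℂ)).roots
      rw [mem_roots ((Polynomial.map_ne_zero_iff hinj).2 (hP i)), IsRoot.def, eval_map]
      have hz' : aeval z (P i) = 0 := hz
      rw [aeval_def] at hz'
      exact hz'
    obtain ⟨z, hz⟩ := (hfin.image f).infinite_compl.nonempty
    have h1 := hNn (eval₂RingHom φ₀ z) fun β hβ => by
      rw [hval φ₀ z β]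
      intro h0
      apply hz
      refine ⟨β, hβ, ?_⟩
      rw [hf]
      exact (sub_eq_zero.1 h0).symm
    rintro rfl
    exact h1 (map_zero _)
  have htr := trailing hℓ₀L φ₀ hℓ₀2 N η hη0 hη1 (by rw [← hφ]; exact hN0)
  have hb0 : N.coeff N.natTrailingDegree ≠ 0 := trailingCoeff_nonzero_iff_nonzero.2 hNne
  have hlenN : len ℓ₀ N ≤ W * Z ^ g := by
    refine (hℓ1 N).trans (hNl.trans (le_of_eq ?_))
    rw [hW, hY, mul_pow]; ring
  have hlow := hmeas _ hb0 (hNf.2 _) (W * Z ^ g) fun s =>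
    (le_lenM _ s).trans ((hℓ₀1 _).trans ((le_len hℓ₀L N _).trans hlenN))
  have hup : |MvPolynomial.aeval x (N.coeff N.natTrailingDegree)| ≤ L₁ * h * δ * (W * Z ^ g) := by
    have h1 : ‖φ₀ (N.coeff N.natTrailingDegree)‖ = |MvPolynomial.aeval x (N.coeff N.natTrailingDegree)| := by
      rw [hφv, Complex.norm_real, Real.norm_eq_abs]
    rw [← h1]
    exact htr.trans (mul_le_mul hηle hlenN (hℓ₀L.poly.nonneg _) (by positivity))
  have hfin := hlow.trans hup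
  -- contradiction
  have e1 : (W * Z ^ g) ^ (-κ₀) = W ^ (-κ₀) * Z ^ (-(g * κ₀ : ℝ)) := by
    rw [Real.mul_rpow (by linarith) (by positivity), ← Real.rpow_natCast Z g, ← Real.rpow_mul hZ0.le]
    congr 2
    ring
  have e2 : L₁ * h * δ * (W * Z ^ g) ≤ (c₀ * W ^ (-κ₀) / 2) * Z ^ (-(g * κ₀ : ℝ)) := by
    have h1 : δ ≤ c₀ * W ^ (-κ₀) / (2 * L₁ * W) * Z ^ (-κ₂) := by
      rw [hδ, hc₂]
      exact mul_le_mul_of_nonneg_right (min_le_right _ _) (by positivity)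
    have h2 : Z * (Z ^ (-κ₂) * Z ^ g) ≤ Z ^ (-(g * κ₀ : ℝ)) := by
      rw [← Real.rpow_natCast Z g, ← Real.rpow_add hZ0]
      nth_rewrite 1 [← Real.rpow_one Z]
      rw [← Real.rpow_add hZ0]
      refine Real.rpow_le_rpow_of_exponent_le hZ1 ?_
      rw [hκ₂]; linarith
    calc L₁ * h * δ * (W * Z ^ g) ≤ L₁ * Z * (c₀ * W ^ (-κ₀) / (2 * L₁ * W) * Z ^ (-κ₂)) * (W * Z ^ g) := by
          gcongr
      _ = (c₀ * W ^ (-κ₀) / 2) * (Z * (Z ^ (-κ₂) * Z ^ g)) := by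
          field_simp
      _ ≤ _ := mul_le_mul_of_nonneg_left h2 (by positivity)
  rw [e1] at hfin
  have h3 : 0 < c₀ * W ^ (-κ₀) * Z ^ (-(g * κ₀ : ℝ)) := by positivity
  have h4 : c₀ * (W ^ (-κ₀) * Z ^ (-(g * κ₀ : ℝ))) ≤ (c₀ * W ^ (-κ₀) / 2) * Z ^ (-(g * κ₀ : ℝ)) := hfin.trans e2
  linarith

end Pool.Agent.Run7.h168.Uni
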