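import Pool.Agent.Run7.h168.Lin.Cut
import Pool.Agent.Run7.h168.Uni.Rel

/-!
# The digits of numbers which satisfy an algebraic relation, uniformly in the relation
-/

set_option autoImplicit false

namespace Pool.Agent.Run7.h168.Uni

open Finset Polynomial Pool.Agent.R356 Pool.Agent.N743.SS Pool.Agent.R473.JC Pool.Agent.TH456.TM
  Pool.Agent.Run7.h168.Mult Pool.Agent.Run7.h168.Lin

/-- the coefficients after a translation -/
def shc {m E : ℕ} (c : (Fin m → Fin (E + 1)) → ℤ) (z : Fin m → ℤ) (t : Fin m → Fin (E + 1)) : ℤ :=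
  ∑ s, c s * ∏ i, (((s i : ℕ).choose (t i) : ℕ) : ℤ) * z i ^ ((s i : ℕ) - (t i : ℕ))

lemma pow_shift (E n : ℕ) (hn : n ≤ E) (u z : ℝ) :
    (u + z) ^ n = ∑ j : Fin (E + 1), ((n.choose j : ℕ) : ℝ) * z ^ (n - (j : ℕ)) * u ^ (j : ℕ) := by
  rw [Fin.sum_univ_eq_sum_range (fun j => ((n.choose j : ℕ) : ℝ) * z ^ (n - j) * u ^ j) (E + 1), add_pow]
  have h1 : Finset.range (n + 1) ⊆ Finset.range (E + 1) := by
    intro j hj
    rw [Finset.mem_range] at hj ⊢
    omega
  rw [← Finset.sum_subset h1 fun j hj hj' => ?_]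
  · refine Finset.sum_congr rfl fun j _ => by ring
  · rw [Finset.mem_range] at hj'
    rw [Nat.choose_eq_zero_of_lt (by omega), Nat.cast_zero, zero_mul, zero_mul]

lemma shift_eq {m E : ℕ} (c : (Fin m → Fin (E + 1)) → ℤ) (z : Fin m → ℤ) (u : Fin m → ℝ) :
    ∑ t, ((shc c z t : ℤ) : ℝ) * ∏ i, u i ^ (t i : ℕ) = ∑ s, (c s : ℝ) * ∏ i, (u i + z i) ^ (s i : ℕ) := by
  classical
  have h1 : ∀ s : Fin m → Fin (E + 1), ∏ i, (u i + z i) ^ (s i : ℕ) = ∑ t : Fin m → Fin (E + 1),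
      ∏ i, (((((s i : ℕ).choose (t i) : ℕ) : ℝ) * (z i : ℝ) ^ ((s i : ℕ) - (t i : ℕ))) * u i ^ (t i : ℕ)) := by
    intro s
    have h2 : ∀ i, (u i + z i) ^ (s i : ℕ) = ∑ j : Fin (E + 1),
        (((s i : ℕ).choose j : ℕ) : ℝ) * (z i : ℝ) ^ ((s i : ℕ) - (j : ℕ)) * u i ^ (j : ℕ) := fun i =>
      pow_shift E _ (by have := (s i).2; omega) _ _
    simp only [h2]
    rw [Finset.prod_univ_sum, Fintype.piFinset_univ]
  simp only [h1]
  unfold shc
  push_cast
  simp only [Finset.sum_mul, Finset.mul_sum]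
  rw [Finset.sum_comm]
  refine Finset.sum_congr rfl fun s _ => Finset.sum_congr rfl fun t _ => ?_
  rw [mul_assoc, ← Finset.prod_mul_distrib]

lemma shc_le {m E : ℕ} (c : (Fin m → Fin (E + 1)) → ℤ) (z : Fin m → ℤ) (H : ℝ) (hH : 1 ≤ H)
    (hc : ∀ s, |(c s : ℝ)| ≤ H) (hz : ∀ i, |(z i : ℝ)| ≤ 2 * H) (t : Fin m → Fin (E + 1)) :
    |((shc c z t : ℤ) : ℝ)| ≤ ((E + 1) * 4 ^ E) ^ m * H ^ (1 + m * E) := by
  classical
  unfold shc
  push_cast
  refine (Finset.abs_sum_le_sum_abs _ _).trans ?_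
  have hf : ∀ s : Fin m → Fin (E + 1), |(c s : ℝ) * ∏ i, ((((s i : ℕ).choose (t i) : ℕ) : ℝ) * (z i : ℝ) ^ ((s i : ℕ) - (t i : ℕ)))| ≤
      H * (4 ^ E * H ^ E) ^ m := by
    intro s
    rw [abs_mul, Finset.abs_prod]
    refine mul_le_mul (hc s) ?_ (Finset.prod_nonneg fun _ _ => abs_nonneg _) (by linarith)
    refine (Finset.prod_le_prod (fun _ _ => abs_nonneg _) (g := fun _ => 4 ^ E * H ^ E) fun i _ => ?_).trans ?_
    · rw [abs_mul, abs_pow, Nat.abs_cast]
      have h1 : (((s i : ℕ).choose (t i) : ℕ) : ℝ) ≤ 2 ^ E := by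
        have h2 : (s i : ℕ).choose (t i) ≤ 2 ^ (s i : ℕ) := Nat.choose_le_two_pow _ _
        have h3 : 2 ^ (s i : ℕ) ≤ 2 ^ E := Nat.pow_le_pow_right (by norm_num) (by have := (s i).2; omega)
        exact_mod_cast h2.trans h3
      have h4 : |(z i : ℝ)| ^ ((s i : ℕ) - (t i : ℕ)) ≤ (2 * H) ^ E := by
        refine (pow_le_pow_left₀ (abs_nonneg _) (hz i) _).trans (pow_le_pow_right₀ (by linarith) ?_)
        have := (s i).2
        omega
      calc (((s i : ℕ).choose (t i) : ℕ) : ℝ) * |(z i : ℝ)| ^ ((s i : ℕ) - (t i : ℕ)) ≤ 2 ^ E * (2 * H) ^ E :=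
            mul_le_mul h1 h4 (by positivity) (by positivity)
        _ = 4 ^ E * H ^ E := by
            rw [mul_pow, ← mul_assoc, ← mul_pow]; norm_num
    · rw [Finset.prod_const, Finset.card_univ, Fintype.card_fin]
  refine (Finset.sum_le_sum fun s _ => hf s).trans ?_
  rw [Finset.sum_const, Finset.card_univ, nsmul_eq_mul, Fintype.card_fun, Fintype.card_fin, Fintype.card_fin]
  push_cast
  refine le_of_eq ?_
  rw [mul_pow, mul_pow, pow_add, ← pow_mul H, ← pow_mul, pow_one, mul_comm E m]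
  ring

lemma lenM_mon {ι : Type} (s : ι →₀ ℕ) (z : ℤ) : lenM (MvPolynomial.monomial s z) ≤ |(z : ℝ)| := by
  classical
  rw [lenM_eq _ {s} (by
    intro t ht
    rw [Finset.mem_singleton]
    by_contra hne
    rw [MvPolynomial.mem_support_iff, MvPolynomial.coeff_monomial, if_neg (Ne.symm hne)] at ht
    exact ht rfl), Finset.sum_singleton, MvPolynomial.coeff_monomial, if_pos rfl]

/-- **Digits of numbers which satisfy an algebraic relation.** -/
theorem cuts_rel (x : ℝ) (hx : MeasT (x : ℂ)) (m E r : ℕ) : ∃ A : ℝ, 1 ≤ A ∧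
    ∀ (c : (Fin m → Fin (E + 1)) → Fin (E + 1) → ℤ) (y : Fin m → ℝ) (H : ℝ), 1 ≤ H →
      (∀ s k, |(c s k : ℝ)| ≤ H) → (∀ i, |y i| ≤ H) →
      ∑ s, (∑ k, (c s k : ℝ) * x ^ (k : ℕ)) * ∏ i, y i ^ (s i : ℕ) = 0 →
      (∃ k, 1 ≤ H * |∑ s, (c s k : ℝ) * ∏ i, y i ^ (s i : ℕ)|) →
      ∀ b : Fin m → ℕ, (∀ i, 2 ≤ b i) → ∀ K L : Fin m → ℕ, ∀ M : ℝ, (∀ i, M ≤ L i * Real.log (b i)) →
      M ≤ A ^ (∑ i, K i + 1) *
        (∑ i, (cutC (b i) (digit (b i) (y i)) r (K i) (L i) + 1) * Real.log (b i) + Real.log H) := by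
  classical
  have hJ := jointH_rel (fun _ : Unit => x) (measM_unit x hx) m E
  obtain ⟨A, hA, hmain⟩ := cutsH (Rel (fun _ : Unit => x) m E) hJ (fun u h hS => hS.1) r
  obtain ⟨B, hB⟩ : ∃ B : ℝ, B = (E + 1) * ((E + 1) * 4 ^ E) ^ m * (1 + |x|) ^ E := ⟨_, rfl⟩
  have hax := abs_nonneg x
  have hE0 : (0 : ℝ) ≤ E := Nat.cast_nonneg E
  have h41 : (1 : ℝ) ≤ (E + 1) * 4 ^ E := one_le_mul_of_one_le_of_one_le (by linarith) (one_le_pow₀ (by norm_num))
  have hxE : (1 : ℝ) ≤ (1 + |x|) ^ E := one_le_pow₀ (by linarith)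
  have hB0 : 1 ≤ ((E : ℝ) + 1) * ((E + 1) * 4 ^ E) ^ m := one_le_mul_of_one_le_of_one_le (by linarith) (one_le_pow₀ h41)
  have hB1 : 1 ≤ B := by
    rw [hB]
    exact one_le_mul_of_one_le_of_one_le hB0 hxE
  have hlB : 0 ≤ Real.log B := Real.log_nonneg hB1
  obtain ⟨G, hG⟩ : ∃ G : ℝ, G = 1 + m * E + 2 * Real.log B := ⟨_, rfl⟩
  have hG1 : 1 ≤ G := by
    rw [hG]
    have : (0 : ℝ) ≤ m * E := by positivity
    linarith
  refine ⟨A * G, one_le_mul_of_one_le_of_one_le hA hG1, ?_⟩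
  intro c y H hH hc hy hrel ⟨k₀, hk₀⟩ b hb K L M hM
  have hH0 : 0 < H := by linarith
  obtain ⟨z, hz⟩ : ∃ z : Fin m → ℤ, z = fun i => ⌊y i⌋ := ⟨_, rfl⟩
  obtain ⟨u, hu⟩ : ∃ u : Fin m → ℝ, u = fun i => Int.fract (y i) := ⟨_, rfl⟩
  have huz : ∀ i, u i + z i = y i := fun i => by rw [hu, hz]; exact Int.fract_add_floor _
  have hu0 : ∀ i, 0 ≤ u i ∧ u i < 1 := fun i => by rw [hu]; exact ⟨Int.fract_nonneg _, Int.fract_lt_one _⟩
  have hzH : ∀ i, |(z i : ℝ)| ≤ 2 * H := by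
    intro i
    have h1 : (z i : ℝ) = y i - u i := by linarith [huz i]
    rw [h1]
    have h2 := abs_le.1 (hy i)
    have h3 := hu0 i
    rw [abs_le]
    constructor <;> linarith
  obtain ⟨cc, hcc⟩ : ∃ cc : (Fin m → Fin (E + 1)) → Fin (E + 1) → ℤ, cc = fun t k => shc (fun s => c s k) z t := ⟨_, rfl⟩
  obtain ⟨B₁, hB₁⟩ : ∃ B₁ : ℝ, B₁ = ((E + 1) * 4 ^ E) ^ m * H ^ (1 + m * E) := ⟨_, rfl⟩
  have hccB : ∀ t k, |(cc t k : ℝ)| ≤ B₁ := by
    intro t k
    rw [hcc, hB₁]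
    exact shc_le _ z H hH (fun s => hc s k) hzH t
  have hsum : ∀ k, ∑ t, (cc t k : ℝ) * ∏ i, u i ^ (t i : ℕ) = ∑ s, (c s k : ℝ) * ∏ i, y i ^ (s i : ℕ) := by
    intro k
    have h1 := shift_eq (fun s => c s k) z u
    simp only [huz] at h1
    rw [hcc]
    exact h1
  obtain ⟨a, ha⟩ : ∃ a : (Fin m → Fin (E + 1)) → MvPolynomial Unit ℤ,
    a = fun t => ∑ k : Fin (E + 1), MvPolynomial.monomial (Finsupp.single () (k : ℕ)) (cc t k) := ⟨_, rfl⟩
  have hav : ∀ t, MvPolynomial.aeval (fun _ : Unit => x) (a t) = ∑ k, (cc t k : ℝ) * x ^ (k : ℕ) := by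
    intro t
    rw [ha]
    show MvPolynomial.aeval (fun _ : Unit => x) (∑ k : Fin (E + 1), _) = _
    rw [map_sum]
    refine Finset.sum_congr rfl fun k _ => ?_
    rw [MvPolynomial.aeval_monomial, Finsupp.prod_single_index (by simp)]
    simp
  obtain ⟨h, hh⟩ : ∃ h : ℝ, h = B * H ^ (1 + m * E) := ⟨_, rfl⟩
  have hHp : 1 ≤ H ^ (1 + m * E) := one_le_pow₀ hH
  have hh1 : 1 ≤ h := by rw [hh]; exact one_le_mul_of_one_le_of_one_le hB1 hHp
  have hHh : H ≤ h := by
    rw [hh]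
    calc H ≤ H ^ (1 + m * E) := le_self_pow₀ hH (by omega)
      _ ≤ _ := le_mul_of_one_le_left (by linarith) hB1
  have hB₁h : (E + 1) * B₁ * (1 + |x|) ^ E = h := by rw [hh, hB, hB₁]; ring
  have hB₁0 : 0 ≤ B₁ := by rw [hB₁]; positivity
  have hS : Rel (fun _ : Unit => x) m E u h := by
    refine ⟨fun i => ?_, a, fun t => ?_, fun t => ?_, fun t => ?_, ?_, Finsupp.single () (k₀ : ℕ), ?_⟩
    · rw [abs_of_nonneg (hu0 i).1]; exact (hu0 i).2.le
    · have h1 : a t ∈ degM (ι := Unit) E := by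
        rw [ha]
        refine sum_mem fun k _ => ?_
        refine (MvPolynomial.totalDegree_monomial_le _ _).trans ?_
        rw [Finsupp.sum_single_index rfl]
        have := k.2
        show (k : ℕ) ≤ E
        omega
      exact h1
    · rw [ha]
      refine (lenM_sum _ _).trans ?_
      refine (Finset.sum_le_sum (g := fun _ => B₁) fun k _ => (lenM_mon _ _).trans (hccB t k)).trans ?_
      rw [Finset.sum_const, Finset.card_univ, Fintype.card_fin, nsmul_eq_mul, ← hB₁h]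
      push_cast
      exact le_mul_of_one_le_right (by positivity) hxE
    · rw [hav]
      refine (Finset.abs_sum_le_sum_abs _ _).trans ?_
      refine (Finset.sum_le_sum (g := fun _ => B₁ * (1 + |x|) ^ E) fun k _ => ?_).trans ?_
      · rw [abs_mul, abs_pow]
        refine mul_le_mul (hccB t k) ?_ (by positivity) hB₁0
        have h2 : |x| ^ (k : ℕ) ≤ (1 + |x|) ^ (k : ℕ) := pow_le_pow_left₀ hax (by linarith) _
        exact h2.trans (pow_le_pow_right₀ (by linarith) (by have := k.2; omega))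
      · rw [Finset.sum_const, Finset.card_univ, Fintype.card_fin, nsmul_eq_mul, ← hB₁h]
        push_cast
        exact le_of_eq (by ring)
    · have h1 : ∀ t, MvPolynomial.aeval (fun _ : Unit => x) (a t) * ∏ i, u i ^ (t i : ℕ) =
          ∑ k : Fin (E + 1), x ^ (k : ℕ) * ((cc t k : ℝ) * ∏ i, u i ^ (t i : ℕ)) := by
        intro t
        rw [hav, Finset.sum_mul]
        exact Finset.sum_congr rfl fun k _ => by ring
      simp only [h1]
      rw [Finset.sum_comm]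
      have h2 : ∑ k : Fin (E + 1), ∑ t, x ^ (k : ℕ) * ((cc t k : ℝ) * ∏ i, u i ^ (t i : ℕ)) =
          ∑ k : Fin (E + 1), ∑ s, x ^ (k : ℕ) * ((c s k : ℝ) * ∏ i, y i ^ (s i : ℕ)) := by
        refine Finset.sum_congr rfl fun k _ => ?_
        rw [← Finset.mul_sum, ← Finset.mul_sum, hsum k]
      rw [h2, Finset.sum_comm, ← hrel]
      refine Finset.sum_congr rfl fun s _ => ?_
      rw [Finset.sum_mul]
      exact Finset.sum_congr rfl fun k _ => by ring
    · have h1 : ∀ t, (a t).coeff (Finsupp.single () (k₀ : ℕ)) = cc t k₀ := by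
        intro t
        rw [ha]
        show MvPolynomial.coeff _ (∑ k : Fin (E + 1), _) = _
        rw [MvPolynomial.coeff_sum, Finset.sum_eq_single k₀]
        · rw [MvPolynomial.coeff_monomial, if_pos rfl]
        · intro k _ hk
          rw [MvPolynomial.coeff_monomial, if_neg]
          intro h2
          exact hk (Fin.ext (Finsupp.single_injective () h2))
        · intro h2; exact absurd (Finset.mem_univ _) h2
      simp only [h1]
      rw [hsum k₀]
      exact hk₀.trans (mul_le_mul_of_nonneg_right hHh (abs_nonneg _))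
  have hdig : ∀ i l, 0 ≤ digit (b i) (y i) l ∧ digit (b i) (y i) l < b i := by
    intro i l
    have h1 : (0 : ℤ) < b i := by have := hb i; omega
    exact ⟨Int.emod_nonneg _ h1.ne', Int.emod_lt_of_pos _ h1⟩
  have hfin := hmain u h hS hh1 b hb K L (fun i => cutC (b i) (digit (b i) (y i)) r (K i) (L i))
    (fun i => digit (b i) (y i)) (fun i l hl => by rw [hu]; exact digit_fract (b i) (y i) l hl)
    (fun i => cutC_mem _ _ (hdig i) r (K i) (L i)) M hM
  -- the size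
  rcases Nat.eq_zero_or_pos m with hm0 | hmpos
  · subst hm0
    obtain ⟨cj, Cj, hcj, hCj, hj⟩ := hJ 0
    obtain ⟨i, _⟩ := hj u h hS hh1 (fun i => i.elim0) (fun i => i.elim0) (fun i => i.elim0) 1 (fun i => i.elim0)
    exact i.elim0
  refine hfin.trans ?_
  obtain ⟨R, hR⟩ : ∃ R : ℝ, R = ∑ i, ((cutC (b i) (digit (b i) (y i)) r (K i) (L i) : ℝ) + 1) * Real.log (b i) := ⟨_, rfl⟩
  rw [← hR]
  have hR1 : 1 / 2 ≤ R := by
    have h1 : ∀ i, 0 ≤ ((cutC (b i) (digit (b i) (y i)) r (K i) (L i) : ℝ) + 1) * Real.log (b i) := fun i => by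
      have := half_lt_log (hb i)
      positivity
    have h2 := Finset.single_le_sum (f := fun i => ((cutC (b i) (digit (b i) (y i)) r (K i) (L i) : ℝ) + 1) * Real.log (b i))
      (fun j _ => h1 j) (Finset.mem_univ (⟨0, hmpos⟩ : Fin m))
    rw [← hR] at h2
    refine le_trans ?_ h2
    have h3 := half_lt_log (hb ⟨0, hmpos⟩)
    have h4 : (0 : ℝ) ≤ (cutC (b ⟨0, hmpos⟩) (digit (b ⟨0, hmpos⟩) (y ⟨0, hmpos⟩)) r (K ⟨0, hmpos⟩) (L ⟨0, hmpos⟩) : ℝ) :=
      Nat.cast_nonneg _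
    nlinarith
  have hlH : 0 ≤ Real.log H := Real.log_nonneg hH
  have hlh : Real.log h = Real.log B + (1 + m * E) * Real.log H := by
    rw [hh, Real.log_mul (by positivity) (by positivity), Real.log_pow]
    push_cast
    ring
  have h1 : R + Real.log h ≤ G * (R + Real.log H) := by
    rw [hlh, hG]
    have h2 : (0 : ℝ) ≤ m * E := by positivity
    have h3 : Real.log B ≤ 2 * Real.log B * R := by nlinarith
    have h4 : 0 ≤ (m : ℝ) * E * R := by positivity
    have h5 : 0 ≤ 2 * Real.log B * Real.log H := by positivity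
    calc R + (Real.log B + (1 + m * E) * Real.log H) ≤ R + 2 * Real.log B * R + (1 + m * E) * Real.log H := by linarith
      _ ≤ R + 2 * Real.log B * R + (1 + m * E) * Real.log H + m * E * R + 2 * Real.log B * Real.log H := by linarith
      _ = (1 + m * E + 2 * Real.log B) * (R + Real.log H) := by ring
  have hRH : 0 ≤ R + Real.log H := by linarith
  calc A ^ (∑ i, K i + 1) * (R + Real.log h) ≤ A ^ (∑ i, K i + 1) * (G * (R + Real.log H)) :=
        mul_le_mul_of_nonneg_left h1 (by positivity)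
    _ ≤ A ^ (∑ i, K i + 1) * (G ^ (∑ i, K i + 1) * (R + Real.log H)) := by
        refine mul_le_mul_of_nonneg_left (mul_le_mul_of_nonneg_right ?_ hRH) (by positivity)
        exact le_self_pow₀ hG1 (by omega)
    _ = (A * G) ^ (∑ i, K i + 1) * (R + Real.log H) := by rw [mul_pow]; ring

end Pool.Agent.Run7.h168.Uni
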